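import Pool.Agent.W829.RP.Defs

/-! RP-DET: vertices and j-faces in general position. -/

set_option autoImplicit false

open MeasureTheory Set Module
open scoped ENNReal

namespace Pool.Agent.W155.RP

open Pool.Agent.W829.RP

variable {V : Type} [NormedAddCommGroup V] [NormedSpace ℝ V]

/-- exposing index sets -/
def Exp {n : ℕ} (ω : Fin n → V) (A : Finset (Fin n)) (l : V →L[ℝ] ℝ) (s : ℝ) : Prop :=
  (∀ i ∈ A, l (ω i) = s) ∧ ∀ i, i ∉ A → l (ω i) < s

theorem Exp.le {n : ℕ} {ω : Fin n → V} {A : Finset (Fin n)} {l : V →L[ℝ] ℝ} {s : ℝ}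
    (h : Exp ω A l s) (i : Fin n) : l (ω i) ≤ s := by
  by_cases hi : i ∈ A
  · exact (h.1 i hi).le
  · exact (h.2 i hi).le

theorem hull_le {n : ℕ} {ω : Fin n → V} {l : V →L[ℝ] ℝ} {s : ℝ} (h : ∀ i, l (ω i) ≤ s)
    {x : V} (hx : x ∈ hull ω) : l x ≤ s := by
  have hc : Convex ℝ {x : V | l x ≤ s} := convex_halfSpace_le l.toLinearMap.isLinear s
  have hsub : hull ω ⊆ {x : V | l x ≤ s} := by
    refine convexHull_min ?_ hc
    rintro _ ⟨i, rfl⟩
    exact h i
  exact hsub hx

/-- the face of an exposing index set -/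
theorem face_eq {n : ℕ} {ω : Fin n → V} {A : Finset (Fin n)} {l : V →L[ℝ] ℝ} {s : ℝ}
    (h : Exp ω A l s) (hA : A.Nonempty) :
    convexHull ℝ (ω '' (A : Set (Fin n))) = {x | x ∈ hull ω ∧ ∀ y ∈ hull ω, l y ≤ l x} := by
  classical
  obtain ⟨a, ha⟩ := hA
  have ha' : ω a ∈ hull ω := subset_convexHull ℝ _ ⟨a, rfl⟩
  ext x
  constructor
  · intro hx
    have h1 : x ∈ hull ω := convexHull_mono (image_subset_range _ _) hx
    have h2 : l x = s := by
      have hc : Convex ℝ {x : V | l x = s} := convex_hyperplane l.toLinearMap.isLinear s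
      have hsub : convexHull ℝ (ω '' (A : Set (Fin n))) ⊆ {x : V | l x = s} := by
        refine convexHull_min ?_ hc
        rintro _ ⟨i, hi, rfl⟩
        exact h.1 i hi
      exact hsub hx
    exact ⟨h1, fun y hy => by rw [h2]; exact hull_le h.le hy⟩
  · rintro ⟨h1, h2⟩
    have h3 : s ≤ l x := by rw [← h.1 a ha]; exact h2 _ ha'
    have h3' : l x = s := le_antisymm (hull_le h.le h1) h3
    unfold hull at h1
    rw [convexHull_eq] at h1
    obtain ⟨ι, t, w, z, hw, hw1, hz, hx⟩ := h1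
    rw [← hx, ← Finset.centerMass_filter_ne_zero]
    have hsum : ∑ i ∈ t, w i * (s - l (z i)) = 0 := by
      have e1 : l x = ∑ i ∈ t, w i * l (z i) := by
        rw [← hx, Finset.centerMass_eq_of_sum_1 _ _ hw1, map_sum]
        refine Finset.sum_congr rfl fun i _ => ?_
        rw [map_smul, smul_eq_mul]
      have e2 : ∑ i ∈ t, w i * (s - l (z i)) = (∑ i ∈ t, w i) * s - ∑ i ∈ t, w i * l (z i) := by
        rw [Finset.sum_mul, ← Finset.sum_sub_distrib]
        refine Finset.sum_congr rfl fun i _ => by ring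
      rw [e2, hw1, ← e1, h3']; ring
    have hz' : ∀ i ∈ t, l (z i) ≤ s := by
      intro i hi
      obtain ⟨k, hk⟩ := hz i hi
      rw [← hk]; exact h.le k
    have hzero : ∀ i ∈ t, w i * (s - l (z i)) = 0 :=
      (Finset.sum_eq_zero_iff_of_nonneg fun i hi =>
        mul_nonneg (hw i hi) (sub_nonneg.2 (hz' i hi))).1 hsum
    refine Finset.centerMass_mem_convexHull _ ?_ ?_ ?_
    · intro i hi; exact hw i (Finset.mem_filter.1 hi).1
    · rw [Finset.sum_filter_ne_zero, hw1]; exact one_pos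
    · intro i hi
      rw [Finset.mem_filter] at hi
      obtain ⟨k, hk⟩ := hz i hi.1
      refine ⟨k, ?_, hk⟩
      have := hzero i hi.1
      have h4 : s - l (z i) = 0 := by
        rcases mul_eq_zero.1 this with h | h
        · exact absurd h hi.2
        · exact h
      by_contra hkA
      have := h.2 k hkA
      rw [hk] at this
      linarith

/-- a point of the family in the face has its index in the exposing set -/
theorem mem_of_face {n : ℕ} {ω : Fin n → V} {A : Finset (Fin n)} {l : V →L[ℝ] ℝ} {s : ℝ}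
    (h : Exp ω A l s) (hA : A.Nonempty) {i : Fin n}
    (hi : ω i ∈ convexHull ℝ (ω '' (A : Set (Fin n)))) : i ∈ A := by
  obtain ⟨a, ha⟩ := hA
  rw [face_eq h ⟨a, ha⟩] at hi
  by_contra hc
  have h1 := h.2 i hc
  have h2 := hi.2 (ω a) (subset_convexHull ℝ _ ⟨a, rfl⟩)
  rw [h.1 a ha] at h2
  linarith

theorem face_inj {n : ℕ} {ω : Fin n → V} {A B : Finset (Fin n)} {l l' : V →L[ℝ] ℝ} {s s' : ℝ}
    (h : Exp ω A l s) (hA : A.Nonempty) (h' : Exp ω B l' s') (hB : B.Nonempty)
    (he : convexHull ℝ (ω '' (A : Set (Fin n))) = convexHull ℝ (ω '' (B : Set (Fin n)))) :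
    A = B := by
  ext i
  constructor
  · intro hi
    apply mem_of_face h' hB
    rw [← he]
    exact subset_convexHull ℝ _ ⟨i, hi, rfl⟩
  · intro hi
    apply mem_of_face h hA
    rw [he]
    exact subset_convexHull ℝ _ ⟨i, hi, rfl⟩

variable [FiniteDimensional ℝ V]

/-- affine independence of small subfamilies -/
theorem aff_small {n : ℕ} {ω : Fin n → V} (hn : finrank ℝ V + 1 ≤ n) (hg : GenPos ω)
    {A : Finset (Fin n)} (hA : A.card ≤ finrank ℝ V + 1) :
    AffineIndependent ℝ (fun i : A => ω i) := by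
  obtain ⟨B, hAB, hB⟩ := Finset.exists_superset_card_eq hA (by simpa using hn)
  let τ : Fin (finrank ℝ V + 1) ↪ Fin n := (B.orderEmbOfFin hB).toEmbedding
  have h1 := hg τ
  have hr : Set.range τ = (B : Set (Fin n)) := Finset.range_orderEmbOfFin B hB
  have hex : ∀ i : A, ∃ k, τ k = i := by
    intro i
    have : (i : Fin n) ∈ Set.range τ := by rw [hr]; exact hAB i.2
    exact this
  choose f hf using hex
  have hinj : Function.Injective f := by
    intro i j hij
    apply Subtype.ext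
    rw [← hf i, ← hf j, hij]
  have h2 := h1.comp_embedding ⟨f, hinj⟩
  have e : ((ω ∘ τ) ∘ (⟨f, hinj⟩ : A ↪ Fin (finrank ℝ V + 1))) = fun i : A => ω i := by
    ext i
    simp [hf]
  rwa [e] at h2

/-- functionals with prescribed values -/
theorem exists_fun {n : ℕ} {ω : Fin n → V} (hn : finrank ℝ V + 1 ≤ n) (hg : GenPos ω)
    {B : Finset (Fin n)} (hB : B.card ≤ finrank ℝ V + 1) {b : Fin n} (hb : b ∈ B) (c : Fin n → ℝ) :
    ∃ w : V →L[ℝ] ℝ, ∀ i ∈ B, w (ω i) - w (ω b) = c i - c b := by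
  have h1 := aff_small hn hg hB
  rw [affineIndependent_iff_linearIndependent_vsub ℝ _ (⟨b, hb⟩ : B)] at h1
  let bs := Module.Basis.span h1
  let f0 := bs.constr ℝ (fun i => c (i : B) - c b)
  obtain ⟨g, hg'⟩ := f0.exists_extend
  refine ⟨LinearMap.toContinuousLinearMap g, fun i hi => ?_⟩
  simp only [LinearMap.coe_toContinuousLinearMap']
  by_cases hib : i = b
  · rw [hib]; ring
  · have hne : (⟨i, hi⟩ : B) ≠ ⟨b, hb⟩ := fun h => hib (by simpa using congrArg Subtype.val h)
    have h2 : g (ω i - ω b) = c i - c b := by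
      have e1 : ((bs ⟨⟨i, hi⟩, hne⟩ : Submodule.span ℝ _) : V) = ω i - ω b := by
        rw [Module.Basis.span_apply]; rfl
      have e2 := LinearMap.congr_fun hg' (bs ⟨⟨i, hi⟩, hne⟩)
      rw [LinearMap.comp_apply, Submodule.subtype_apply, e1] at e2
      rw [e2, Module.Basis.constr_basis]
    rw [← map_sub, h2]

theorem inj_of_genPos {n : ℕ} {ω : Fin n → V} (hD : 1 ≤ finrank ℝ V) (hn : finrank ℝ V + 1 ≤ n)
    (hg : GenPos ω) : Function.Injective ω := by
  classical
  intro i j hij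
  by_contra hne
  have hB : ({i, j} : Finset (Fin n)).card ≤ finrank ℝ V + 1 := by
    rw [Finset.card_pair hne]; omega
  obtain ⟨w, hw⟩ := exists_fun hn hg hB (b := j) (by simp) (fun k => if k = i then 1 else 0)
  have := hw i (by simp)
  rw [hij] at this
  simp [Ne.symm hne] at this

/-- an exposing set which is not everything on a line has at most `D` elements -/
theorem card_le {n : ℕ} {ω : Fin n → V} (hn : finrank ℝ V + 1 ≤ n) (hg : GenPos ω)
    {A : Finset (Fin n)} {l : V →L[ℝ] ℝ} {s : ℝ} (h : Exp ω A l s) {q : Fin n} (hq : q ∉ A)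
    (hA : A.Nonempty) :
    A.card ≤ finrank ℝ V := by
  by_contra hc
  push Not at hc
  obtain ⟨B, hBA, hB⟩ := Finset.exists_subset_card_eq (n := finrank ℝ V + 1) (s := A) hc
  have h1 := aff_small hn hg hB.le
  have h2 := h1.vectorSpan_eq_top_of_card_eq_finrank_add_one (by simpa using hB)
  have h3 : vectorSpan ℝ (Set.range fun i : B => ω i) ≤ LinearMap.ker (l : V →ₗ[ℝ] ℝ) := by
    rw [vectorSpan_def, Submodule.span_le]
    rintro _ ⟨_, ⟨i, rfl⟩, _, ⟨j, rfl⟩, rfl⟩
    simp only [SetLike.mem_coe, LinearMap.mem_ker, vsub_eq_sub, ContinuousLinearMap.coe_coe, map_sub]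
    rw [h.1 _ (hBA i.2), h.1 _ (hBA j.2), sub_self]
  rw [h2] at h3
  have h4 : ∀ v, l v = 0 := fun v => h3 (Submodule.mem_top (x := v))
  obtain ⟨a, ha⟩ := hA
  have h5 := h.1 a ha
  have h6 := h.2 q hq
  rw [h4] at h5 h6
  linarith

/-- (X) -/
theorem exp_sub {n : ℕ} {ω : Fin n → V} (hn : finrank ℝ V + 1 ≤ n) (hg : GenPos ω)
    {A B : Finset (Fin n)} {l : V →L[ℝ] ℝ} {s : ℝ} (h : Exp ω A l s) (hA : A.card ≤ finrank ℝ V + 1)
    (hBA : B ⊆ A) (hB : B.Nonempty) : ∃ l' s', Exp ω B l' s' := by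
  classical
  obtain ⟨b, hb⟩ := hB
  obtain ⟨w, hw⟩ := exists_fun hn hg hA (hBA hb) (fun k => if k ∈ B then 0 else -1)
  have hev : ∀ᶠ η : ℝ in nhdsWithin 0 (Ioi 0), ∀ i, i ∉ A → l (ω i) + η * w (ω i) < s + η * w (ω b) := by
    rw [Filter.eventually_all]
    intro i
    by_cases hi : i ∈ A
    · exact Filter.Eventually.of_forall fun _ h => absurd hi h
    · have hlt := h.2 i hi
      have hc : Filter.Tendsto (fun η : ℝ => (s + η * w (ω b)) - (l (ω i) + η * w (ω i)))
          (nhdsWithin 0 (Ioi 0)) (nhds ((s + 0 * w (ω b)) - (l (ω i) + 0 * w (ω i)))) := by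
        apply Filter.Tendsto.mono_left _ nhdsWithin_le_nhds
        exact Continuous.tendsto (by fun_prop) 0
      have hpos : (0 : ℝ) < (s + 0 * w (ω b)) - (l (ω i) + 0 * w (ω i)) := by
        simp only [zero_mul, add_zero]; linarith
      filter_upwards [hc.eventually (lt_mem_nhds hpos)] with η hη _
      linarith
  obtain ⟨η, hη, hη0⟩ := (hev.and self_mem_nhdsWithin).exists
  have hη0' : 0 < η := hη0
  refine ⟨l + η • w, s + η * w (ω b), ?_, ?_⟩
  · intro i hi
    have h1 := hw i (hBA hi)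
    simp only [hi, hb, if_true, sub_zero] at h1
    simp only [ContinuousLinearMap.add_apply, ContinuousLinearMap.smul_apply, smul_eq_mul]
    rw [h.1 i (hBA hi)]
    have : w (ω i) = w (ω b) := by linarith
    rw [this]
  · intro i hi
    simp only [ContinuousLinearMap.add_apply, ContinuousLinearMap.smul_apply, smul_eq_mul]
    by_cases hiA : i ∈ A
    · have h1 := hw i hiA
      simp only [hi, hb, if_true, if_false, sub_zero] at h1
      rw [h.1 i hiA]
      have : w (ω i) = w (ω b) - 1 := by linarith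
      rw [this]
      nlinarith
    · exact hη i hiA

/-- (Y) -/
theorem exp_super {n : ℕ} {ω : Fin n → V} (hn : finrank ℝ V + 1 ≤ n) (hg : GenPos ω)
    {A : Finset (Fin n)} {l : V →L[ℝ] ℝ} {s : ℝ} (h : Exp ω A l s) (hA : A.card + 1 ≤ finrank ℝ V)
    (hAn : A.Nonempty) :
    ∃ A' l' s', Exp ω A' l' s' ∧ A ⊂ A' ∧ ∃ q, q ∉ A' := by
  classical
  -- two further indices
  have hcard : 2 ≤ (Finset.univ \ A).card := by
    rw [Finset.card_sdiff_of_subset (Finset.subset_univ _), Finset.card_univ, Fintype.card_fin]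
    omega
  obtain ⟨C, hC, hC2⟩ := Finset.exists_subset_card_eq hcard
  obtain ⟨p, q, hpq, rfl⟩ := Finset.card_eq_two.1 hC2
  have hp : p ∉ A := (Finset.mem_sdiff.1 (hC (by simp))).2
  have hq : q ∉ A := (Finset.mem_sdiff.1 (hC (by simp))).2
  obtain ⟨a, ha⟩ := hAn
  have hB : (insert p (insert q A)).card ≤ finrank ℝ V + 1 := by
    have := Finset.card_insert_le p (insert q A)
    have := Finset.card_insert_le q A
    omega
  obtain ⟨w, hw⟩ := exists_fun hn hg hB (b := a) (by simp [ha])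
    (fun k => if k = p then 1 else if k = q then -1 else 0)
  have hap : a ≠ p := fun e => hp (e ▸ ha)
  have haq : a ≠ q := fun e => hq (e ▸ ha)
  have hwA : ∀ i ∈ A, w (ω i) = w (ω a) := by
    intro i hi
    have h1 := hw i (by simp [hi])
    have hip : i ≠ p := fun e => hp (e ▸ hi)
    have hiq : i ≠ q := fun e => hq (e ▸ hi)
    simp only [hip, hiq, hap, haq, if_false, sub_zero] at h1
    linarith
  have hwp : w (ω p) = w (ω a) + 1 := by
    have h1 := hw p (by simp)
    simp only [hap, haq, if_false, if_true, sub_zero] at h1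
    linarith
  have hwq : w (ω q) = w (ω a) - 1 := by
    have h1 := hw q (by simp)
    simp only [hap, haq, hpq.symm, if_false, if_true, sub_zero] at h1
    linarith
  -- the minimum
  let T := Finset.univ.filter fun i : Fin n => w (ω a) < w (ω i)
  have hpT : p ∈ T := by simp [T, hwp]
  obtain ⟨m, hm, hmin⟩ := Finset.exists_min_image T
    (fun i => (s - l (ω i)) / (w (ω i) - w (ω a))) ⟨p, hpT⟩
  have hmT : w (ω a) < w (ω m) := by simpa [T] using hm
  have hmA : m ∉ A := fun hmA => by rw [hwA m hmA] at hmT; exact lt_irrefl _ hmT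
  set ε := (s - l (ω m)) / (w (ω m) - w (ω a)) with hε
  have hεpos : 0 < ε := div_pos (by linarith [h.2 m hmA]) (by linarith)
  have key : ∀ i, l (ω i) + ε * w (ω i) ≤ s + ε * w (ω a) := by
    intro i
    by_cases hi : w (ω a) < w (ω i)
    · have h1 := hmin i (by simp [T, hi])
      rw [le_div_iff₀ (by linarith)] at h1
      have h2 : ε * (w (ω i) - w (ω a)) ≤ s - l (ω i) := h1
      linarith
    · have h1 := h.le i
      have h2 : ε * w (ω i) ≤ ε * w (ω a) := mul_le_mul_of_nonneg_left (not_lt.1 hi) hεpos.le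
      linarith
  refine ⟨Finset.univ.filter fun i => l (ω i) + ε * w (ω i) = s + ε * w (ω a), l + ε • w,
    s + ε * w (ω a), ⟨?_, ?_⟩, ?_, q, ?_⟩
  · intro i hi
    simpa using hi
  · intro i hi
    have h1 : ¬ (l (ω i) + ε * w (ω i) = s + ε * w (ω a)) := by simpa using hi
    simpa using lt_of_le_of_ne (key i) h1
  · rw [Finset.ssubset_iff_of_subset]
    · refine ⟨m, ?_, hmA⟩
      rw [Finset.mem_filter]
      refine ⟨Finset.mem_univ _, ?_⟩
      have : ε * (w (ω m) - w (ω a)) = s - l (ω m) := by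
        rw [hε, div_mul_cancel₀]; exact (by linarith : (0 : ℝ) < w (ω m) - w (ω a)).ne'
      linarith
    · intro i hi
      rw [Finset.mem_filter]
      exact ⟨Finset.mem_univ _, by rw [h.1 i hi, hwA i hi]⟩
  · rw [Finset.mem_filter]
    rintro ⟨-, h1⟩
    have h2 := h.2 q hq
    rw [hwq] at h1
    nlinarith

/-- every exposing singleton is contained in an exposing set of `j + 1` elements -/
theorem exists_exp {n j : ℕ} {ω : Fin n → V} (hj : j < finrank ℝ V) (hn : finrank ℝ V + 1 ≤ n)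
    (hg : GenPos ω) {i : Fin n} {l : V →L[ℝ] ℝ} {s : ℝ} (h : Exp ω {i} l s) :
    ∃ A : Finset (Fin n), i ∈ A ∧ A.card = j + 1 ∧ ∃ l' s', Exp ω A l' s' := by
  classical
  -- grow
  have grow : ∀ k : ℕ, k ≤ j → ∃ A : Finset (Fin n), i ∈ A ∧ k + 1 ≤ A.card ∧ A.card ≤ finrank ℝ V ∧
      ∃ l' s', Exp ω A l' s' := by
    intro k
    induction k with
    | zero =>
      intro _
      exact ⟨{i}, by simp, by simp, by simp; omega, l, s, h⟩
    | succ k ih =>
      intro hk
      obtain ⟨A, hiA, hA1, hA2, l', s', hA⟩ := ih (by omega)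
      rcases Nat.lt_or_ge A.card (k + 2) with hlt | hge
      · obtain ⟨A', l'', s'', hA', hss, q, hq⟩ := exp_super hn hg hA (by omega) ⟨i, hiA⟩
        have hiA' : i ∈ A' := hss.1 hiA
        have := Finset.card_lt_card hss
        exact ⟨A', hiA', by omega, card_le hn hg hA' hq ⟨i, hiA'⟩, l'', s'', hA'⟩
      · exact ⟨A, hiA, by omega, hA2, l', s', hA⟩
  obtain ⟨A, hiA, hA1, hA2, l', s', hA⟩ := grow j le_rfl
  obtain ⟨B, hiB, hBA, hB⟩ := Finset.exists_subsuperset_card_eq
    (Finset.singleton_subset_iff.2 hiA) (n := j + 1) (by simp) hA1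
  have hiB' : i ∈ B := hiB (by simp)
  obtain ⟨l'', s'', hB'⟩ := exp_sub hn hg hA (by omega) hBA ⟨i, hiB'⟩
  exact ⟨B, hiB', hB, l'', s'', hB'⟩

/-- the face of an exposing set of `j + 1` elements is a `j`-face -/
theorem face_mem {n j : ℕ} {ω : Fin n → V} (hj : j < finrank ℝ V) (hn : finrank ℝ V + 1 ≤ n)
    (hg : GenPos ω) {A : Finset (Fin n)} {l : V →L[ℝ] ℝ} {s : ℝ} (h : Exp ω A l s)
    (hA : A.card = j + 1) : convexHull ℝ (ω '' (A : Set (Fin n))) ∈ faces j (hull ω) := by
  have hAn : A.Nonempty := Finset.card_pos.1 (by omega)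
  refine ⟨?_, ?_, ?_⟩
  · obtain ⟨a, ha⟩ := hAn
    exact ⟨ω a, subset_convexHull ℝ _ ⟨a, ha, rfl⟩⟩
  · intro _
    exact ⟨l, face_eq h hAn⟩
  · have h1 := aff_small hn hg (A := A) (by omega)
    have h2 := h1.finrank_vectorSpan (n := j) (by simpa using hA)
    have e : Set.range (fun i : A => ω i) = ω '' (A : Set (Fin n)) := by
      ext x; simp
    rw [e] at h2
    rw [← direction_affineSpan, affineSpan_convexHull, direction_affineSpan]
    exact h2

/-- vertices come from exposing singletons -/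
theorem vertex {n : ℕ} {ω : Fin n → V} (hD : 1 ≤ finrank ℝ V) (hn : finrank ℝ V + 1 ≤ n)
    (hg : GenPos ω) {F : Set V} (hF : F ∈ faces 0 (hull ω)) :
    ∃ i, F = {ω i} ∧ ∃ l s, Exp ω {i} l s := by
  obtain ⟨hne, hexp, hdim⟩ := hF
  obtain ⟨l, hl⟩ := hexp hne
  have hinj := inj_of_genPos hD hn hg
  have hbot : vectorSpan ℝ F = ⊥ := Submodule.finrank_eq_zero.1 hdim
  have hsub : ∀ x ∈ F, ∀ y ∈ F, x = y := by
    intro x hx y hy
    have := vsub_mem_vectorSpan ℝ hx hy
    rw [hbot, Submodule.mem_bot, vsub_eq_sub, sub_eq_zero] at this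
    exact this
  haveI : Nonempty (Fin n) := ⟨⟨0, by omega⟩⟩
  obtain ⟨i, hi⟩ := Finite.exists_max fun i : Fin n => l (ω i)
  have hiF : ω i ∈ F := by
    rw [hl]
    exact ⟨subset_convexHull ℝ _ ⟨i, rfl⟩, fun y hy => hull_le hi hy⟩
  refine ⟨i, ?_, l, l (ω i), ?_, ?_⟩
  · ext x
    rw [Set.mem_singleton_iff]
    exact ⟨fun hx => hsub x hx _ hiF, fun hx => hx ▸ hiF⟩
  · intro k hk
    rw [Finset.mem_singleton.1 hk]
  · intro k hk
    rw [Finset.mem_singleton] at hk
    refine lt_of_le_of_ne (hi k) fun e => hk ?_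
    have hkF : ω k ∈ F := by
      rw [hl]
      exact ⟨subset_convexHull ℝ _ ⟨k, rfl⟩, fun y hy => by rw [e]; exact hull_le hi hy⟩
    exact hinj (hsub _ hkF _ hiF)

theorem det : S_DET := by
  classical
  intro V _ _ _ n j hj hn ω hg
  have hD : 1 ≤ finrank ℝ V := by omega
  let I : Finset (Fin n) := Finset.univ.filter fun i => ∃ l s, Exp ω {i} l s
  have hex : ∀ i : Fin n, ∃ A : Finset (Fin n), i ∈ I → (i ∈ A ∧ A.card = j + 1 ∧ ∃ l s, Exp ω A l s) := by
    intro i
    by_cases hi : i ∈ I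
    · have : ∃ l s, Exp ω {i} l s := by simpa [I] using hi
      obtain ⟨l, s, h⟩ := this
      obtain ⟨A, hA⟩ := exists_exp hj hn hg h
      exact ⟨A, fun _ => hA⟩
    · exact ⟨∅, fun h => absurd h hi⟩
  choose f hf using hex
  have h1 : (faces 0 (hull ω)).encard ≤ (I.card : ℕ∞) := by
    have : faces 0 (hull ω) ⊆ (fun i => {ω i}) '' (I : Set (Fin n)) := by
      intro F hF
      obtain ⟨i, hi, hi'⟩ := vertex hD hn hg hF
      exact ⟨i, by simpa [I] using hi', hi.symm⟩
    calc (faces 0 (hull ω)).encard ≤ ((fun i => ({ω i} : Set V)) '' (I : Set (Fin n))).encard :=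
          Set.encard_mono this
      _ ≤ (I : Set (Fin n)).encard := Set.encard_image_le _ _
      _ = I.card := by rw [Set.encard_coe_eq_coe_finsetCard]
  have h2 : I.card ≤ (j + 1) * (Finset.image f I).card := by
    refine Finset.card_le_mul_card_image I (j + 1) ?_
    intro B hB
    obtain ⟨i, hi, rfl⟩ := Finset.mem_image.1 hB
    have : (I.filter fun a => f a = f i) ⊆ f i := by
      intro a ha
      rw [Finset.mem_filter] at ha
      have := (hf a ha.1).1
      rwa [ha.2] at this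
    exact (Finset.card_le_card this).trans (hf i hi).2.1.le
  have h3 : ((Finset.image f I).card : ℕ∞) ≤ (faces j (hull ω)).encard := by
    rw [← Set.encard_coe_eq_coe_finsetCard]
    refine Set.encard_le_encard_of_injOn (f := fun A : Finset (Fin n) =>
      convexHull ℝ (ω '' (A : Set (Fin n)))) ?_ ?_
    · intro A hA
      obtain ⟨i, hi, rfl⟩ := Finset.mem_image.1 (Finset.mem_coe.1 hA)
      obtain ⟨h4, h5, l, s, h6⟩ := hf i hi
      exact face_mem hj hn hg h6 h5
    · intro A hA B hB hAB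
      obtain ⟨i, hi, rfl⟩ := Finset.mem_image.1 (Finset.mem_coe.1 hA)
      obtain ⟨k, hk, rfl⟩ := Finset.mem_image.1 (Finset.mem_coe.1 hB)
      obtain ⟨h4, h5, l, s, h6⟩ := hf i hi
      obtain ⟨h4', h5', l', s', h6'⟩ := hf k hk
      exact face_inj h6 ⟨i, h4⟩ h6' ⟨k, h4'⟩ hAB
  calc (faces 0 (hull ω)).encard ≤ (I.card : ℕ∞) := h1
    _ ≤ (((j + 1) * (Finset.image f I).card : ℕ) : ℕ∞) := by exact_mod_cast h2
    _ = ((j + 1 : ℕ) : ℕ∞) * ((Finset.image f I).card : ℕ∞) := by push_cast; rfl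
    _ ≤ ((j + 1 : ℕ) : ℕ∞) * (faces j (hull ω)).encard := by gcongr

end Pool.Agent.W155.RP
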